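import Pool.Agent.H11.ZDE.Stmts

/-!
# Project ZDE, module K: products of two reflections and cosets of type `A_2`
-/

set_option autoImplicit false

namespace Pool.Agent.H11.ZDE

open RootLat

namespace KMod

section

variable {B W : Type*} [Group W] {M : CoxeterMatrix B} {cs : CoxeterSystem M W}
  {L : Type*} [AddCommGroup L] {R : RootLat L}

theorem T_sq (G : Geo cs R) {b : L} (h : R.Q b b = 2) : G.T b * G.T b = 1 := by
  apply G.inj
  rw [map_mul, G.ρT b h, R.r_r h, map_one]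

theorem Jn_symm (G : Geo cs R) {x y : W} (h : G.Jn x y) : G.Jn y x := by
  obtain ⟨b, hb, pb, rfl⟩ := h
  refine ⟨b, hb, pb, ?_⟩
  rw [mul_assoc, T_sq G hb, mul_one]

/-- factorisations of a product of two reflections -/
theorem cn_stmt (G : Geo cs R) : CNStmt G := by
  intro b c b' c' hb pb hc pc hb' pb' hc' pc' hne h
  have h1 : R.r b * R.r c = R.r b' * R.r c' := by
    rw [← G.ρT b hb, ← G.ρT c hc, ← G.ρT b' hb', ← G.ρT c' hc', ← map_mul, ← map_mul, h]
  have hne' : b' ≠ c' := by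
    intro hbc
    rw [← hbc, R.r_r hb'] at h1
    have h2 : R.r c = R.r b := by
      calc R.r c = R.r b * R.r b * R.r c := by rw [R.r_r hb, one_mul]
        _ = R.r b := by rw [mul_assoc, h1, mul_one]
    have h3 : R.r c b = R.r b b := by rw [h2]
    rw [r_apply, r_apply, hb, sub_right_inj] at h3
    have h5 : R.Q (R.Q b c • c) b = R.Q ((2 : ℤ) • b) b := by rw [h3]
    rw [R.Q_smul, R.Q_smul, hb, R.Q_comm c b] at h5
    rcases R.Q_cases' hb hc pb pc hne with h | h | h <;> rw [h] at h5 <;> norm_num at h5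
  have e1 : R.r b (R.r c b') = R.r b' (R.r c' b') := by
    have := congrArg (fun f : Module.End ℤ L => f b') h1
    simpa only [Module.End.mul_apply] using this
  have e2 : R.r b (R.r c c') = R.r b' (R.r c' c') := by
    have := congrArg (fun f : Module.End ℤ L => f c') h1
    simpa only [Module.End.mul_apply] using this
  simp only [r_apply, Q_sub, Q_smul, hb', hc', R.Q_comm c b, R.Q_comm c' b'] at e1 e2
  have hk' := R.Q_cases' hb' hc' pb' pc' hne'
  have hk := R.Q_cases' hb hc pb pc hne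
  generalize hk1 : R.Q b' c' = k' at e1 e2 hk'
  generalize R.Q c' b = u2 at e1 e2
  generalize R.Q c' c = x2 at e1 e2
  have key : (4 - k' ^ 2) • b' = (2 * (R.Q b' b - R.Q b' c * R.Q b c) -
      k' * (u2 - x2 * R.Q b c)) • b + (2 * R.Q b' c - k' * x2) • c := by
    linear_combination (norm := module) (2 : ℤ) • e1 - k' • e2
  generalize (2 * (R.Q b' b - R.Q b' c * R.Q b c) - k' * (u2 - x2 * R.Q b c)) = α at key
  generalize (2 * R.Q b' c - k' * x2) = β at key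
  have E1 : R.Q ((4 - k' ^ 2) • b') b' = R.Q (α • b + β • c) b' := by rw [key]
  have E2 : R.Q ((4 - k' ^ 2) • b') b = R.Q (α • b + β • c) b := by rw [key]
  have E3 : R.Q ((4 - k' ^ 2) • b') c = R.Q (α • b + β • c) c := by rw [key]
  simp only [Q_smul, R.Q_add, hb', hb, hc, R.Q_comm c b, R.Q_comm b b', R.Q_comm c b'] at E1 E2 E3
  have hu := R.Q_cases hb' hb
  have hx := R.Q_cases hb' hc
  have d : 2 * ((4 - k' ^ 2) * (R.Q b' b ^ 2 + R.Q b' c ^ 2 - R.Q b c * R.Q b' b * R.Q b' c -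
      (4 - R.Q b c ^ 2))) = 0 := by
    linear_combination (2 * R.Q b' b - R.Q b c * R.Q b' c) * E2 +
      (2 * R.Q b' c - R.Q b c * R.Q b' b) * E3 - (4 - R.Q b c ^ 2) * E1
  have d' : R.Q b' b ^ 2 + R.Q b' c ^ 2 - R.Q b c * R.Q b' b * R.Q b' c -
      (4 - R.Q b c ^ 2) = 0 := by
    rcases hk' with h | h | h <;> rw [h] at d <;> linarith
  have n1 : R.Q b' b ≠ -2 := by
    intro h
    have := R.eq_neg_of hb' hb h
    rw [this] at pb'
    exact R.P_neg pb pb'
  have n2 : R.Q b' c ≠ -2 := by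
    intro h
    have := R.eq_neg_of hb' hc h
    rw [this] at pb'
    exact R.P_neg pc pb'
  by_cases hu2 : R.Q b' b = 2
  · exact Or.inl (R.eq_of_two hb' hb hu2)
  by_cases hx2 : R.Q b' c = 2
  · exact Or.inr (Or.inl (R.eq_of_two hb' hc hx2))
  right
  right
  rcases hk with hk | hk | hk
  · left
    refine ⟨hk, R.eq_of_two hb' ?_ ?_⟩
    · simp only [R.Q_add, R.Q_addr, hb, hc, R.Q_comm c b, hk]
      norm_num
    · rw [R.Q_addr]
      rw [hk] at d'
      have n3 : ¬ (R.Q b' b = -1 ∧ R.Q b' c = -1) := by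
        rintro ⟨h1, h2⟩
        exact R.no_triangle hb hc hb' pb pc pb' hk (by rw [R.Q_comm]; exact h2)
          (by rw [R.Q_comm]; exact h1)
      rcases hu with h | h | h | h | h <;> rcases hx with h' | h' | h' | h' | h' <;>
        rw [h, h'] at d' n3 ⊢ <;> rw [h] at n1 hu2 <;> rw [h'] at n2 hx2 <;> omega
  · exfalso
    rw [hk] at d'
    rcases hu with h | h | h | h | h <;> rcases hx with h' | h' | h' | h' | h' <;>
        rw [h, h'] at d' <;> rw [h] at n1 hu2 <;> rw [h'] at n2 hx2 <;> omega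
  · right
    have hroot : R.Q (b - c) (b - c) = 2 := by
      simp only [R.Q_sub, R.Q_subr, hb, hc, R.Q_comm c b, hk]
      norm_num
    have hroot' : R.Q (c - b) (c - b) = 2 := by
      simp only [R.Q_sub, R.Q_subr, hb, hc, R.Q_comm c b, hk]
      norm_num
    rw [hk] at d'
    have hcase : (R.Q b' b = 1 ∧ R.Q b' c = -1) ∨ (R.Q b' b = -1 ∧ R.Q b' c = 1) := by
      rcases hu with h | h | h | h | h <;> rcases hx with h' | h' | h' | h' | h' <;>
        rw [h, h'] at d' ⊢ <;> rw [h] at n1 hu2 <;> rw [h'] at n2 hx2 <;> omega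
    rcases hcase with ⟨h, h'⟩ | ⟨h, h'⟩
    · left
      refine ⟨hk, R.eq_of_two hb' hroot ?_⟩
      rw [R.Q_subr, h, h']
      norm_num
    · right
      refine ⟨hk, R.eq_of_two hb' hroot' ?_⟩
      rw [R.Q_subr, h, h']
      norm_num

/-- the three positive roots of a subsystem of type `A_2` -/
def A2 (b₁ b₂ b₃ : L) : Prop := b₁ = b₂ + b₃ ∨ b₂ = b₁ + b₃ ∨ b₃ = b₁ + b₂

theorem A2.swap12 {b₁ b₂ b₃ : L} (h : A2 b₁ b₂ b₃) : A2 b₂ b₁ b₃ := by
  rcases h with h | h | h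
  · exact Or.inr (Or.inl h)
  · exact Or.inl h
  · exact Or.inr (Or.inr (by rw [h, add_comm]))

theorem Q_of_sum {a b c : L} (ha : R.Q a a = 2) (hb : R.Q b b = 2) (hc : R.Q c c = 2)
    (h : a = b + c) : R.Q b c = -1 := by
  rw [h] at ha
  simp only [R.Q_add, R.Q_addr, hb, hc, R.Q_comm c b] at ha
  omega

theorem A2.T_mul (G : Geo cs R) {b₁ b₂ b₃ : L} (h : A2 b₁ b₂ b₃) (h1 : R.Q b₁ b₁ = 2)
    (h2 : R.Q b₂ b₂ = 2) (h3 : R.Q b₃ b₃ = 2) : G.T b₁ * G.T b₂ = G.T b₂ * G.T b₃ := by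
  apply G.inj
  rw [map_mul, map_mul, G.ρT _ h1, G.ρT _ h2, G.ρT _ h3]
  rcases h with h | h | h
  · rw [h]
    exact (R.swm h2 (Q_of_sum h1 h2 h3 h)).symm
  · have hQ : R.Q b₃ b₁ = -1 := Q_of_sum h2 h3 h1 (by rw [h, add_comm])
    rw [h, add_comm b₁ b₃]
    exact (R.swm' h1 hQ).symm.trans (R.swm h3 hQ)
  · rw [h]
    exact R.swm' h2 (Q_of_sum h3 h1 h2 h)

theorem A2.factor (G : Geo cs R) {b₁ b₂ b₃ e f : L} (h : A2 b₁ b₂ b₃) (h1 : R.Q b₁ b₁ = 2)
    (h2 : R.Q b₂ b₂ = 2) (h3 : R.Q b₃ b₃ = 2) (p1 : R.P b₁) (p2 : R.P b₂) (p3 : R.P b₃)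
    (he : R.Q e e = 2) (pe : R.P e) (hf : R.Q f f = 2) (pf : R.P f)
    (hT : G.T b₂ * G.T b₃ = G.T e * G.T f) : e = b₁ ∨ e = b₂ ∨ e = b₃ := by
  have hne : b₂ ≠ b₃ := by
    rintro rfl
    rcases h with h | h | h
    · have := Q_of_sum h1 h2 h2 h
      omega
    · rw [right_eq_add] at h
      exact R.P_ne p1 h
    · rw [right_eq_add] at h
      exact R.P_ne p1 h
  rcases cn_stmt G b₂ b₃ e f h2 p2 h3 p3 he pe hf pf hne hT with h' | h' | h' | h' | h'
  · exact Or.inr (Or.inl h')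
  · exact Or.inr (Or.inr h')
  · left
    rcases h with h | h | h
    · rw [h'.2, h]
    · have := Q_of_sum h2 h1 h3 h
      have h4 := h'.1
      rw [h, R.Q_add, h3] at h4
      omega
    · have := Q_of_sum h3 h1 h2 h
      have h4 := h'.1
      rw [h, R.Q_addr, h2, R.Q_comm b₂ b₁] at h4
      omega
  · left
    rcases h with h | h | h
    · have := Q_of_sum h1 h2 h3 h
      have h4 := h'.1
      omega
    · rw [h'.2, h, add_sub_cancel_right]
    · exfalso
      rw [h'.2, h] at pe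
      apply R.P_neg p1
      refine R.P_cast pe ?_
      abel
  · left
    rcases h with h | h | h
    · have := Q_of_sum h1 h2 h3 h
      have h4 := h'.1
      omega
    · exfalso
      rw [h'.2, h] at pe
      apply R.P_neg p1
      refine R.P_cast pe ?_
      abel
    · rw [h'.2, h, add_sub_cancel_right]

theorem A2_of_three (G : Geo cs R) {b₁ b₂ b₃ d₁ d₂ d₃ : L} (h1 : R.Q b₁ b₁ = 2)
    (h2 : R.Q b₂ b₂ = 2) (h3 : R.Q b₃ b₃ = 2) (p1 : R.P b₁) (p2 : R.P b₂) (p3 : R.P b₃)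
    (k1 : R.Q d₁ d₁ = 2) (k2 : R.Q d₂ d₂ = 2) (k3 : R.Q d₃ d₃ = 2) (q1 : R.P d₁) (q2 : R.P d₂)
    (q3 : R.P d₃) (hne : b₁ ≠ d₁) (h12 : b₁ ≠ b₂) (h13 : b₁ ≠ b₃) (h23 : b₂ ≠ b₃)
    (e12 : G.T b₁ * G.T d₁ = G.T b₂ * G.T d₂) (e13 : G.T b₁ * G.T d₁ = G.T b₃ * G.T d₃) :
    A2 b₁ b₂ b₃ := by
  have c2 := cn_stmt G b₁ d₁ b₂ d₂ h1 p1 k1 q1 h2 p2 k2 q2 hne e12
  have c3 := cn_stmt G b₁ d₁ b₃ d₃ h1 p1 k1 q1 h3 p3 k3 q3 hne e13
  have hneg : ∀ x y : L, R.P (x - y) → R.P (y - x) → False := fun x y hx hy =>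
    R.P_neg hx (R.P_cast hy (by abel))
  rcases c2 with c2 | c2 | c2 | c2 | c2
  · exact absurd c2.symm h12
  · rcases c3 with c3 | c3 | c3 | c3 | c3
    · exact absurd c3.symm h13
    · exact absurd (c2.trans c3.symm) h23
    · exact Or.inr (Or.inr (by rw [c3.2, c2]))
    · exact Or.inl (by rw [c3.2, c2, add_sub_cancel])
    · exact Or.inr (Or.inl (by rw [c3.2, c2, add_sub_cancel]))
  · rcases c3 with c3 | c3 | c3 | c3 | c3
    · exact absurd c3.symm h13
    · exact Or.inr (Or.inl (by rw [c2.2, c3]))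
    · exact absurd (c2.2.trans c3.2.symm) h23
    · have := c2.1
      have := c3.1
      omega
    · have := c2.1
      have := c3.1
      omega
  · rcases c3 with c3 | c3 | c3 | c3 | c3
    · exact absurd c3.symm h13
    · exact Or.inl (by rw [c2.2, c3, sub_add_cancel])
    · have := c2.1
      have := c3.1
      omega
    · exact absurd (c2.2.trans c3.2.symm) h23
    · rw [c2.2] at p2
      rw [c3.2] at p3
      exact (hneg _ _ p2 p3).elim
  · rcases c3 with c3 | c3 | c3 | c3 | c3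
    · exact absurd c3.symm h13
    · exact Or.inr (Or.inr (by rw [c2.2, c3, add_sub_cancel]))
    · have := c2.1
      have := c3.1
      omega
    · rw [c2.2] at p2
      rw [c3.2] at p3
      exact (hneg _ _ p2 p3).elim
    · exact absurd (c2.2.trans c3.2.symm) h23

/-- `y ≠ a` have the common neighbours `B, z, c`, and `T` is a common neighbour of `z, c` -/
theorem khard (G : Geo cs R) (y a B z c T : W) (hya : y ≠ a) (hBz : B ≠ z) (hBc : B ≠ c)
    (hzc : z ≠ c) (yB : G.Jn y B) (yz : G.Jn y z) (yc : G.Jn y c) (aB : G.Jn a B)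
    (az : G.Jn a z) (ac : G.Jn a c) (zT : G.Jn z T) (cT : G.Jn c T) : G.Jn B T := by
  obtain ⟨b₁, h1, p1, rfl⟩ := yB
  obtain ⟨b₂, h2, p2, rfl⟩ := yz
  obtain ⟨b₃, h3, p3, rfl⟩ := yc
  obtain ⟨d₁, k1, q1, e1⟩ := Jn_symm G aB
  obtain ⟨d₂, k2, q2, e2⟩ := Jn_symm G az
  obtain ⟨d₃, k3, q3, e3⟩ := Jn_symm G ac
  obtain ⟨e, he, pe, hT⟩ := zT
  obtain ⟨f, hf, pf, hT'⟩ := cT
  have hne : b₁ ≠ d₁ := by
    rintro rfl
    rw [mul_assoc, T_sq G h1, mul_one] at e1
    exact hya e1.symm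
  have h12 : b₁ ≠ b₂ := fun h => hBz (by rw [h])
  have h13 : b₁ ≠ b₃ := fun h => hBc (by rw [h])
  have h23 : b₂ ≠ b₃ := fun h => hzc (by rw [h])
  have e12 : G.T b₁ * G.T d₁ = G.T b₂ * G.T d₂ := by
    have := e1.symm.trans e2
    rw [mul_assoc, mul_assoc] at this
    exact mul_left_cancel this
  have e13 : G.T b₁ * G.T d₁ = G.T b₃ * G.T d₃ := by
    have := e1.symm.trans e3
    rw [mul_assoc, mul_assoc] at this
    exact mul_left_cancel this
  have hA := A2_of_three G h1 h2 h3 p1 p2 p3 k1 k2 k3 q1 q2 q3 hne h12 h13 h23 e12 e13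
  have hfac : G.T b₂ * G.T b₃ = G.T e * G.T f := by
    have h4 : G.T b₂ * G.T e = G.T b₃ * G.T f := by
      have := hT.symm.trans hT'
      rw [mul_assoc, mul_assoc] at this
      exact mul_left_cancel this
    calc G.T b₂ * G.T b₃ = G.T b₂ * G.T b₃ * (G.T f * G.T f) := by rw [T_sq G hf, mul_one]
      _ = G.T b₂ * (G.T b₃ * G.T f) * G.T f := by simp only [mul_assoc]
      _ = G.T b₂ * G.T b₂ * G.T e * G.T f := by rw [← h4]; simp only [mul_assoc]
      _ = G.T e * G.T f := by rw [T_sq G h2, one_mul]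
  rcases hA.factor G h1 h2 h3 p1 p2 p3 he pe hf pf hfac with h | h | h
  · refine ⟨b₃, h3, p3, ?_⟩
    rw [hT, h, mul_assoc, mul_assoc, hA.swap12.T_mul G h2 h1 h3]
  · refine ⟨b₁, h1, p1, ?_⟩
    rw [hT, h, mul_assoc, mul_assoc, T_sq G h1, T_sq G h2]
  · refine ⟨b₂, h2, p2, ?_⟩
    rw [hT, h, mul_assoc, mul_assoc, hA.T_mul G h1 h2 h3]

theorem khard_stmt (G : Geo cs R) : KHardStmt G := by
  intro y a B z c T hya hBz hBc hzc yB yz yc aB az ac zT cT _
  exact khard G y a B z c T hya hBz hBc hzc yB yz yc aB az ac zT cT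

theorem klong_stmt (G : Geo cs R) : KLongStmt G := by
  intro o1 o2 o3 e1 e2 e3 h12 k12 k13 k23 a1 a2 a3 b1 b2 b3 c2 c3
  exact khard G o1 o2 e1 e2 e3 o3 h12 k12 k13 k23 a1 a2 a3 b1 b2 b3 (Jn_symm G c2) (Jn_symm G c3)

end

end KMod

end Pool.Agent.H11.ZDE
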